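import Mathlib

/-!
MP_2b41e9_nt: over an alternate base with Salem product, a greedy expansion of a number of
`ℚ(β)` is eventually periodic or has exponentially growing factor complexity.
-/

open Polynomial Finset

namespace Pool.Agent.Results.MP_2b41e9_nt.Complexity

/-- The set of factors (blocks) of length `L` of the infinite word `w`. -/
def factors (w : ℕ → ℤ) (L : ℕ) : Set (Fin L → ℤ) :=
  Set.range fun n : ℕ => fun j : Fin L => w (n + j)

section setup

variable {β : ℝ}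




theorem aeval_int_iff_rat (hint : IsIntegral ℤ β) (z : ℂ) :
    aeval z (minpoly ℤ β) = 0 ↔ aeval z (minpoly ℚ β) = 0 := by
  rw [minpoly.isIntegrallyClosed_eq_field_fractions' ℚ hint, aeval_map_algebraMap]

/-- the identity embedding -/
noncomputable def φ₀ (β : ℝ) : IntermediateField.adjoin ℚ ({β} : Set ℝ) →ₐ[ℚ] ℂ :=
  (Complex.ofRealAm.restrictScalars ℚ).comp (IntermediateField.val _)

theorem φ₀_apply (y : IntermediateField.adjoin ℚ ({β} : Set ℝ)) :
    φ₀ β y = ((y : ℝ) : ℂ) := rfl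

/-- the generator -/
noncomputable def gen (β : ℝ) : IntermediateField.adjoin ℚ ({β} : Set ℝ) :=
  IntermediateField.AdjoinSimple.gen ℚ β

theorem gen_coe : ((gen β : IntermediateField.adjoin ℚ ({β} : Set ℝ)) : ℝ) = β := rfl

theorem root_of_embedding (φ : IntermediateField.adjoin ℚ ({β} : Set ℝ) →ₐ[ℚ] ℂ) :
    aeval (φ (gen β)) (minpoly ℚ β) = 0 := by
  rw [aeval_algHom_apply]
  have : aeval (gen β) (minpoly ℚ β) = 0 := by
    rw [← IntermediateField.minpoly_gen ℚ β]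
    exact minpoly.aeval _ _
  rw [this, map_zero]

theorem embedding_of_root (hint : IsIntegral ℤ β) (z : ℂ) (hz : aeval z (minpoly ℚ β) = 0) :
    ∃ φ : IntermediateField.adjoin ℚ ({β} : Set ℝ) →ₐ[ℚ] ℂ, φ (gen β) = z := by
  have hintQ : IsIntegral ℚ β := hint.tower_top
  have hne : minpoly ℚ β ≠ 0 := minpoly.ne_zero hintQ
  have hmem : z ∈ (minpoly ℚ β).aroots ℂ := by
    rw [mem_aroots]
    exact ⟨hne, hz⟩
  refine ⟨(IntermediateField.algHomAdjoinIntegralEquiv ℚ hintQ).symm ⟨z, hmem⟩, ?_⟩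
  exact IntermediateField.algHomAdjoinIntegralEquiv_symm_apply_gen ℚ hintQ _

theorem embedding_ext (hint : IsIntegral ℤ β)
    (φ ψ : IntermediateField.adjoin ℚ ({β} : Set ℝ) →ₐ[ℚ] ℂ) (h : φ (gen β) = ψ (gen β)) :
    φ = ψ := by
  have hintQ : IsIntegral ℚ β := hint.tower_top
  refine (IntermediateField.adjoin.powerBasis hintQ).algHom_ext ?_
  have : (IntermediateField.adjoin.powerBasis hintQ).gen = gen β :=
    IntermediateField.adjoin.powerBasis_gen hintQ
  rw [this]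
  exact h

/-- `1/β` is a conjugate of `β`. -/
theorem inv_root (hint : IsIntegral ℤ β)
    (z : ℂ) (hz : aeval z (minpoly ℤ β) = 0) (hz1 : ‖z‖ = 1) :
    ∃ φ : IntermediateField.adjoin ℚ ({β} : Set ℝ) →ₐ[ℚ] ℂ, φ (gen β) = ((β⁻¹ : ℝ) : ℂ) := by
  have hzQ := (aeval_int_iff_rat hint z).1 hz
  obtain ⟨ψ, hψ⟩ := embedding_of_root hint z hzQ
  -- `z⁻¹ = conj z` is a root
  have hconj : z⁻¹ = (starRingEnd ℂ) z := by
    rw [Complex.inv_def, Complex.normSq_eq_norm_sq, hz1]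
    simp
  have h1 : aeval z⁻¹ (minpoly ℚ β) = 0 := by
    rw [hconj]
    have h2 : aeval ((Complex.conjAe.restrictScalars ℚ) z) (minpoly ℚ β) = 0 := by
      rw [aeval_algHom_apply, hzQ, map_zero]
    exact h2
  have h3 : ψ (aeval (gen β)⁻¹ (minpoly ℚ β)) = 0 := by
    rw [← aeval_algHom_apply, map_inv₀, hψ, h1]
  have h4 : aeval (gen β)⁻¹ (minpoly ℚ β) = 0 := by
    have := (map_eq_zero ψ).1 h3
    exact this
  have h5 : aeval (φ₀ β (gen β)⁻¹) (minpoly ℚ β) = 0 := by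
    rw [aeval_algHom_apply, h4, map_zero]
  obtain ⟨φ, hφ⟩ := embedding_of_root hint _ h5
  refine ⟨φ, ?_⟩
  rw [hφ, map_inv₀, φ₀_apply, gen_coe]
  push_cast
  rfl

end setup

section norm

variable {β : ℝ}

/-- a nonzero element with integral multiple `D • y` has `∏ |D| ‖φ y‖ ≥ 1` -/
theorem norm_lower (D : ℤ) (hD : D ≠ 0)
    [FiniteDimensional ℚ (IntermediateField.adjoin ℚ ({β} : Set ℝ))]
    (y : IntermediateField.adjoin ℚ ({β} : Set ℝ)) (hy : y ≠ 0) (hDy : IsIntegral ℤ (D • y)) :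
    1 ≤ ∏ φ : IntermediateField.adjoin ℚ ({β} : Set ℝ) →ₐ[ℚ] ℂ, (|(D : ℝ)| * ‖φ y‖) := by
  have hne : D • y ≠ 0 := smul_ne_zero hD hy
  have h1 : IsIntegral ℤ (Algebra.norm ℚ (D • y)) := Algebra.isIntegral_norm ℚ hDy
  obtain ⟨k, hk⟩ := IsIntegrallyClosed.isIntegral_iff.1 h1
  have hN0 : Algebra.norm ℚ (D • y) ≠ 0 := Algebra.norm_ne_zero_iff.2 hne
  have hk0 : k ≠ 0 := by
    rintro rfl
    apply hN0
    rw [← hk]
    simp
  have h2 : (algebraMap ℚ ℂ) (Algebra.norm ℚ (D • y)) =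
      ∏ φ : IntermediateField.adjoin ℚ ({β} : Set ℝ) →ₐ[ℚ] ℂ, φ (D • y) := by
    exact Algebra.norm_eq_prod_embeddings ℚ ℂ (D • y)
  have h3 : ‖(algebraMap ℚ ℂ) (Algebra.norm ℚ (D • y))‖ = |(k : ℝ)| := by
    rw [← hk]
    simp
  have h4 : (1 : ℝ) ≤ |(k : ℝ)| := by
    rw [← Int.cast_abs]
    exact_mod_cast Int.one_le_abs hk0
  rw [← h3, h2, norm_prod] at h4
  refine h4.trans_eq (Finset.prod_congr rfl fun φ _ => ?_)
  rw [zsmul_eq_mul, map_mul, norm_mul, map_intCast, Complex.norm_intCast]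

end norm

section dynamics

variable {p : ℕ} {βs : ℕ → ℝ} {β : ℝ}

theorem prod_shift (hper : ∀ n : ℕ, βs (n + p) = βs n)
    (hprod : β = ∏ i ∈ Finset.range p, βs i) (hgt : ∀ n : ℕ, 1 < βs n) (i : ℕ) :
    ∏ j ∈ Finset.range p, βs (j + i) = β := by
  induction i with
  | zero => simpa using hprod.symm
  | succ i ih =>
    have h1 : ∏ j ∈ Finset.range (p + 1), βs (j + i) =
        (∏ j ∈ Finset.range p, βs (j + i)) * βs (p + i) := Finset.prod_range_succ _ _
    have h2 : ∏ j ∈ Finset.range (p + 1), βs (j + i) =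
        (∏ j ∈ Finset.range p, βs (j + 1 + i)) * βs (0 + i) := Finset.prod_range_succ' _ _
    have h3 : βs (p + i) = βs (0 + i) := by
      rw [zero_add, add_comm, hper]
    rw [h1, h3] at h2
    have h4 : βs (0 + i) ≠ 0 := by
      have := hgt (0 + i)
      intro h
      rw [h] at this
      linarith
    have h5 := mul_right_cancel₀ h4 h2
    rw [ih] at h5
    rw [h5]
    refine Finset.prod_congr rfl fun j _ => ?_
    congr 1
    ring

theorem le_prod (hp : 0 < p) (hper : ∀ n : ℕ, βs (n + p) = βs n)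
    (hprod : β = ∏ i ∈ Finset.range p, βs i) (hgt : ∀ n : ℕ, 1 < βs n) (n : ℕ) : βs n ≤ β := by
  have h := prod_shift hper hprod hgt n
  obtain ⟨q, rfl⟩ : ∃ q, p = q + 1 := ⟨p - 1, by omega⟩
  rw [Finset.prod_range_succ', zero_add] at h
  rw [← h]
  have h1 : 1 ≤ ∏ k ∈ Finset.range q, βs (k + 1 + n) :=
    Finset.one_le_prod (fun j _ => (hgt (j + 1 + n)).le)
  nlinarith [hgt n]

/-- lower bound for the partial products -/
theorem prod_lower (hp : 0 < p) (hper : ∀ n : ℕ, βs (n + p) = βs n)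
    (hprod : β = ∏ i ∈ Finset.range p, βs i) (hgt : ∀ n : ℕ, 1 < βs n) (hβ : 1 < β)
    (i L : ℕ) :
    β ^ ((L : ℝ) / p) ≤ β * ∏ j ∈ Finset.range L, βs (j + i) := by
  have hβ0 : 0 < β := by linarith
  have hp' : (0 : ℝ) < p := by exact_mod_cast hp
  induction L using Nat.strong_induction_on with
  | _ L ih =>
    rcases lt_or_ge L p with hL | hL
    · have h1 : 1 ≤ ∏ k ∈ Finset.range L, βs (k + i) :=
        Finset.one_le_prod (fun j _ => (hgt (j + i)).le)
      have h2 : β ^ ((L : ℝ) / p) ≤ β ^ (1 : ℝ) := by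
        apply Real.rpow_le_rpow_of_exponent_le hβ.le
        rw [div_le_one hp']
        exact_mod_cast hL.le
      rw [Real.rpow_one] at h2
      nlinarith
    · have h1 := ih (L - p) (by omega)
      have h2 : ∏ j ∈ Finset.range L, βs (j + i) =
          (∏ j ∈ Finset.range (L - p), βs (j + i)) * β := by
        have h3 : L = (L - p) + p := by omega
        conv_lhs => rw [h3]
        rw [Finset.prod_range_add]
        congr 1
        rw [← prod_shift hper hprod hgt (L - p + i)]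
        refine Finset.prod_congr rfl fun j _ => ?_
        congr 1
        ring
      have h4 : β ^ ((L : ℝ) / p) = β ^ (((L - p : ℕ) : ℝ) / p) * β := by
        rw [Nat.cast_sub hL]
        have : (L : ℝ) / p = ((L : ℝ) - p) / p + 1 := by
          field_simp
          ring
        rw [this, Real.rpow_add hβ0, Real.rpow_one]
      rw [h4, h2]
      calc β ^ (((L - p : ℕ) : ℝ) / p) * β ≤
          (β * ∏ j ∈ Finset.range (L - p), βs (j + i)) * β :=
            mul_le_mul_of_nonneg_right h1 hβ0.le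
        _ = _ := by ring

/-- explicit form of the state after `t` steps inside a block -/
theorem block (hper : ∀ n : ℕ, βs (n + p) = βs n) (hgt : ∀ n : ℕ, 1 < βs n) (i : ℕ)
    (r : ℕ → ℝ)
    (hr : ∀ n : ℕ, r (n + 1) = βs (n + i) * r n - (⌊βs (n + i) * r n⌋ : ℝ)) (m t : ℕ) :
    r (m * p + t) = (∏ j ∈ Finset.range t, βs (j + i)) *
      (r (m * p) - ∑ k ∈ Finset.range t,
        (⌊βs (m * p + k + i) * r (m * p + k)⌋ : ℝ) * (∏ j ∈ Finset.range (k + 1), βs (j + i))⁻¹) := by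
  have hperm : ∀ n m : ℕ, βs (m * p + n) = βs n := by
    intro n m
    induction m with
    | zero => simp
    | succ m ih =>
      rw [← ih, show (m + 1) * p + n = (m * p + n) + p by ring, hper]
  induction t with
  | zero => simp
  | succ t ih =>
    have hW : (∏ j ∈ Finset.range (t + 1), βs (j + i)) ≠ 0 :=
      Finset.prod_ne_zero_iff.2 fun j _ => by have := hgt (j + i); positivity
    have h1 : βs (m * p + t + i) = βs (t + i) := by
      rw [add_assoc, hperm]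
    have h2 : r (m * p + (t + 1)) = βs (t + i) * r (m * p + t) -
        (⌊βs (m * p + t + i) * r (m * p + t)⌋ : ℝ) := by
      rw [← add_assoc, hr, ← h1]
    rw [h2, Finset.sum_range_succ]
    generalize (⌊βs (m * p + t + i) * r (m * p + t)⌋ : ℝ) = e
    rw [ih]
    generalize (∑ k ∈ Finset.range t, (⌊βs (m * p + k + i) * r (m * p + k)⌋ : ℝ) *
      (∏ j ∈ Finset.range (k + 1), βs (j + i))⁻¹) = S
    rw [Finset.prod_range_succ] at hW ⊢
    have hW1 : (∏ j ∈ Finset.range t, βs (j + i)) ≠ 0 := left_ne_zero_of_mul hW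
    have hW2 : βs (t + i) ≠ 0 := right_ne_zero_of_mul hW
    field_simp
    ring

end dynamics

section main

variable {p : ℕ} {βs : ℕ → ℝ} {β : ℝ}

theorem state_mem (i : ℕ) (r : ℕ → ℝ)
    (hr0 : 0 ≤ r 0 ∧ r 0 ≤ 1)
    (hr : ∀ n : ℕ, r (n + 1) = βs (n + i) * r n - (⌊βs (n + i) * r n⌋ : ℝ)) (n : ℕ) :
    0 ≤ r n ∧ r n ≤ 1 := by
  cases n with
  | zero => exact hr0
  | succ n =>
    rw [hr]
    constructor
    · have := Int.floor_le (βs (n + i) * r n)
      linarith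
    · have := Int.lt_floor_add_one (βs (n + i) * r n)
      linarith

theorem digit_bound (hp : 0 < p) (hper : ∀ n : ℕ, βs (n + p) = βs n)
    (hprod : β = ∏ i ∈ Finset.range p, βs i) (hgt : ∀ n : ℕ, 1 < βs n) (i : ℕ) (r : ℕ → ℝ)
    (hr0 : 0 ≤ r 0 ∧ r 0 ≤ 1)
    (hr : ∀ n : ℕ, r (n + 1) = βs (n + i) * r n - (⌊βs (n + i) * r n⌋ : ℝ)) (n : ℕ) :
    0 ≤ ⌊βs (n + i) * r n⌋ ∧ (⌊βs (n + i) * r n⌋ : ℝ) ≤ β := by
  have h1 := state_mem i r hr0 hr n
  have h2 := hgt (n + i)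
  have h3 := le_prod hp hper hprod hgt (n + i)
  constructor
  · apply Int.floor_nonneg.2
    exact mul_nonneg (by linarith) h1.1
  · refine (Int.floor_le _).trans ?_
    nlinarith

/-- the gap estimate: two different block states are not too close -/
theorem gap (hp : 0 < p) (hper : ∀ n : ℕ, βs (n + p) = βs n) (hgt : ∀ n : ℕ, 1 < βs n)
    (hprod : β = ∏ i ∈ Finset.range p, βs i)
    (hint : IsIntegral ℤ β) (hβ : 1 < β)
    (hconj : ∀ z : ℂ, aeval z (minpoly ℤ β) = 0 → z ≠ (β : ℂ) → ‖z‖ ≤ 1)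
    (hunit : ∃ z : ℂ, aeval z (minpoly ℤ β) = 0 ∧ ‖z‖ = 1)
    (hmem : ∀ n : ℕ, βs n ∈ IntermediateField.adjoin ℚ ({β} : Set ℝ)) (i : ℕ)
    (r : ℕ → ℝ) (hr0 : 0 ≤ r 0 ∧ r 0 ≤ 1)
    (hr0K : r 0 ∈ IntermediateField.adjoin ℚ ({β} : Set ℝ))
    (hr : ∀ n : ℕ, r (n + 1) = βs (n + i) * r n - (⌊βs (n + i) * r n⌋ : ℝ)) :
    ∃ C : ℝ, 0 < C ∧ ∀ M m n : ℕ, m ≤ M → n ≤ M → r (m * p) ≠ r (n * p) →
      1 ≤ |r (m * p) - r (n * p)| * C * (1 + M : ℝ) ^ ((minpoly ℤ β).natDegree - 2) := by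
  classical
  have hβ0 : 0 < β := by linarith
  have hintQ : IsIntegral ℚ β := hint.tower_top
  have hfd : FiniteDimensional ℚ (IntermediateField.adjoin ℚ ({β} : Set ℝ)) :=
    IntermediateField.adjoin.finiteDimensional hintQ
  obtain ⟨z, hz, hz1⟩ := hunit
  obtain ⟨φ₁, hφ₁⟩ := inv_root hint z hz hz1
  have hφ₁n : ‖φ₁ (gen β)‖ = β⁻¹ := by
    rw [hφ₁, Complex.norm_real, Real.norm_of_nonneg (by positivity)]
  have hne : φ₁ ≠ φ₀ β := by
    intro h
    rw [h, φ₀_apply, gen_coe, Complex.norm_real, Real.norm_of_nonneg hβ0.le] at hφ₁n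
    have : β⁻¹ < 1 := inv_lt_one_of_one_lt₀ hβ
    linarith
  -- conjugates other than the identity are small
  have hsmall : ∀ φ : IntermediateField.adjoin ℚ ({β} : Set ℝ) →ₐ[ℚ] ℂ, φ ≠ φ₀ β →
      ‖φ (gen β)‖ ≤ 1 := by
    intro φ hφ
    refine hconj _ ((aeval_int_iff_rat hint _).2 (root_of_embedding φ)) ?_
    intro h
    apply hφ
    apply embedding_ext hint
    rw [h, φ₀_apply, gen_coe]
  -- elements of K
  let W : ℕ → IntermediateField.adjoin ℚ ({β} : Set ℝ) := fun k =>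
    ∏ j ∈ Finset.range (k + 1), (⟨βs (j + i), hmem _⟩ : IntermediateField.adjoin ℚ ({β} : Set ℝ))
  let cK : ℕ → IntermediateField.adjoin ℚ ({β} : Set ℝ) := fun k => gen β * (W k)⁻¹
  let e : ℕ → ℕ → ℤ := fun m k => ⌊βs (m * p + k + i) * r (m * p + k)⌋
  let s : ℕ → IntermediateField.adjoin ℚ ({β} : Set ℝ) := fun m =>
    Nat.rec (motive := fun _ => IntermediateField.adjoin ℚ ({β} : Set ℝ)) ⟨r 0, hr0K⟩
      (fun m s => gen β * s - ∑ k ∈ Finset.range p,
        ((e m k : ℤ) : IntermediateField.adjoin ℚ ({β} : Set ℝ)) * cK k) m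
  have hs0 : s 0 = ⟨r 0, hr0K⟩ := rfl
  have hs1 : ∀ m, s (m + 1) = gen β * s m - ∑ k ∈ Finset.range p,
      ((e m k : ℤ) : IntermediateField.adjoin ℚ ({β} : Set ℝ)) * cK k := fun m => rfl
  have hWc : ∀ k, ((W k : IntermediateField.adjoin ℚ ({β} : Set ℝ)) : ℝ) =
      ∏ j ∈ Finset.range (k + 1), βs (j + i) := by
    intro k
    simp only [W]
    push_cast
    rfl
  have hsc : ∀ m, ((s m : IntermediateField.adjoin ℚ ({β} : Set ℝ)) : ℝ) = r (m * p) := by
    intro m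
    induction m with
    | zero => rw [hs0]; simp
    | succ m ih =>
      rw [hs1]
      push_cast
      rw [gen_coe, ih]
      have h1 := block hper hgt i r hr m p
      rw [prod_shift hper hprod hgt i] at h1
      rw [show (m + 1) * p = m * p + p by ring, h1, mul_sub, Finset.mul_sum]
      congr 1
      refine Finset.sum_congr rfl fun k _ => ?_
      simp only [cK, e]
      push_cast
      rw [gen_coe, hWc]
      ring
  -- common denominator
  have halg : Algebra.IsAlgebraic ℤ (IntermediateField.adjoin ℚ ({β} : Set ℝ)) :=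
    (IsFractionRing.comap_isAlgebraic_iff (A := ℤ) (K := ℚ)
      (C := IntermediateField.adjoin ℚ ({β} : Set ℝ))).2 inferInstance
  obtain ⟨D, hD0, hD⟩ := Algebra.IsAlgebraic.exists_integral_multiples ℤ
    (insert (s 0) ((Finset.range p).image cK))
  have hgenint : IsIntegral ℤ (gen β) := by
    have : IsIntegral ℤ ((gen β : IntermediateField.adjoin ℚ ({β} : Set ℝ)) : ℝ) := by
      rw [gen_coe]; exact hint
    exact (isIntegral_algebraMap_iff
      (algebraMap (IntermediateField.adjoin ℚ ({β} : Set ℝ)) ℝ).injective).1 this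
  have hDs : ∀ m, IsIntegral ℤ (D • s m) := by
    intro m
    induction m with
    | zero => exact hD _ (Finset.mem_insert_self _ _)
    | succ m ih =>
      have h1 : D • s (m + 1) = gen β * (D • s m) -
          ∑ k ∈ Finset.range p, (e m k : IntermediateField.adjoin ℚ ({β} : Set ℝ)) *
            (D • cK k) := by
        rw [hs1, smul_sub, Finset.smul_sum, mul_smul_comm]
        congr 1
        refine Finset.sum_congr rfl fun k _ => ?_
        rw [mul_smul_comm]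
      rw [h1]
      refine (hgenint.mul ih).sub (IsIntegral.sum _ fun k hk => ?_)
      exact (isIntegral_algebraMap (R := ℤ) (x := e m k)).mul
        (hD _ (Finset.mem_insert_of_mem (Finset.mem_image_of_mem _ hk)))
  -- growth of the conjugates
  let A : (IntermediateField.adjoin ℚ ({β} : Set ℝ) →ₐ[ℚ] ℂ) → ℝ := fun φ =>
    ‖φ (s 0)‖ + ∑ k ∈ Finset.range p, β * ‖φ (cK k)‖
  have hA0 : ∀ φ, 0 ≤ A φ := fun φ => add_nonneg (norm_nonneg _)
    (Finset.sum_nonneg fun k _ => mul_nonneg hβ0.le (norm_nonneg _))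
  set C₀ : ℝ := 1 + ∑ φ, A φ with hC₀
  have hC₀pos : 0 < C₀ := by
    have := Finset.sum_nonneg (s := Finset.univ) fun φ _ => hA0 φ
    linarith
  have hAC : ∀ φ, A φ ≤ C₀ := fun φ => by
    have := Finset.single_le_sum (f := A) (fun ψ _ => hA0 ψ) (Finset.mem_univ φ)
    linarith
  have hdig : ∀ m k, ‖((e m k : ℤ) : ℂ)‖ ≤ β := by
    intro m k
    have h := digit_bound hp hper hprod hgt i r hr0 hr (m * p + k)
    rw [Complex.norm_intCast, abs_of_nonneg (by exact_mod_cast h.1)]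
    exact h.2
  have hstep : ∀ (φ : IntermediateField.adjoin ℚ ({β} : Set ℝ) →ₐ[ℚ] ℂ) (m : ℕ),
      ‖φ (s (m + 1))‖ ≤ ‖φ (gen β)‖ * ‖φ (s m)‖ + ∑ k ∈ Finset.range p, β * ‖φ (cK k)‖ := by
    intro φ m
    rw [hs1, map_sub, map_mul, map_sum]
    refine (norm_sub_le _ _).trans ?_
    rw [norm_mul]
    refine add_le_add le_rfl ((norm_sum_le _ _).trans (Finset.sum_le_sum fun k _ => ?_))
    rw [map_mul, norm_mul, map_intCast]
    exact mul_le_mul_of_nonneg_right (hdig m k) (norm_nonneg _)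
  have hgrow : ∀ φ : IntermediateField.adjoin ℚ ({β} : Set ℝ) →ₐ[ℚ] ℂ,
      ‖φ (gen β)‖ ≤ 1 → ∀ m : ℕ, ‖φ (s m)‖ ≤ C₀ * (1 + m) := by
    intro φ hφ m
    induction m with
    | zero =>
      have h1 : ‖φ (s 0)‖ ≤ A φ := le_add_of_nonneg_right
        (Finset.sum_nonneg fun k _ => mul_nonneg hβ0.le (norm_nonneg _))
      simpa using h1.trans (hAC φ)
    | succ m ih =>
      have h1 := hstep φ m
      have h2 : ∑ k ∈ Finset.range p, β * ‖φ (cK k)‖ ≤ A φ :=
        le_add_of_nonneg_left (norm_nonneg _)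
      have h3 := hAC φ
      have h4 : ‖φ (gen β)‖ * ‖φ (s m)‖ ≤ 1 * ‖φ (s m)‖ :=
        mul_le_mul_of_nonneg_right hφ (norm_nonneg _)
      push_cast
      linarith
  have hinv1 : β⁻¹ < 1 := inv_lt_one_of_one_lt₀ hβ
  set C₁ : ℝ := C₀ / (1 - β⁻¹) with hC₁
  have hC₁eq : C₁ * (1 - β⁻¹) = C₀ := div_mul_cancel₀ _ (by linarith)
  have hC₁pos : 0 < C₁ := div_pos hC₀pos (by linarith)
  have hC₀₁ : C₀ ≤ C₁ := by
    have : 0 < β⁻¹ := by positivity
    nlinarith
  have hbdd : ∀ m : ℕ, ‖φ₁ (s m)‖ ≤ C₁ := by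
    intro m
    induction m with
    | zero =>
      have h1 : ‖φ₁ (s 0)‖ ≤ A φ₁ := le_add_of_nonneg_right
        (Finset.sum_nonneg fun k _ => mul_nonneg hβ0.le (norm_nonneg _))
      exact (h1.trans (hAC φ₁)).trans hC₀₁
    | succ m ih =>
      have h1 := hstep φ₁ m
      have h2 : ∑ k ∈ Finset.range p, β * ‖φ₁ (cK k)‖ ≤ A φ₁ :=
        le_add_of_nonneg_left (norm_nonneg _)
      have h3 := hAC φ₁
      rw [hφ₁n] at h1
      have h4 : β⁻¹ * ‖φ₁ (s m)‖ ≤ β⁻¹ * C₁ :=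
        mul_le_mul_of_nonneg_left ih (by positivity)
      nlinarith
  -- number of embeddings
  have hcard : Fintype.card (IntermediateField.adjoin ℚ ({β} : Set ℝ) →ₐ[ℚ] ℂ) =
      (minpoly ℤ β).natDegree := by
    rw [AlgHom.card, IntermediateField.adjoin.finrank hintQ,
      minpoly.isIntegrallyClosed_eq_field_fractions' ℚ hint, (minpoly.monic hint).natDegree_map]
  have hcard2 : ((Finset.univ.erase (φ₀ β)).erase φ₁).card = (minpoly ℤ β).natDegree - 2 := by
    rw [Finset.card_erase_of_mem (Finset.mem_erase.2 ⟨hne, Finset.mem_univ _⟩),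
      Finset.card_erase_of_mem (Finset.mem_univ _), Finset.card_univ, hcard]
    omega
  have hDpos : 0 < |(D : ℝ)| := abs_pos.2 (by exact_mod_cast hD0)
  refine ⟨|(D : ℝ)| * (|(D : ℝ)| * (2 * C₁)) *
    (|(D : ℝ)| * (2 * C₀)) ^ ((minpoly ℤ β).natDegree - 2), by positivity,
    fun M m n hm hn hmn => ?_⟩
  have hyne : s m - s n ≠ 0 := by
    intro h
    apply hmn
    rw [← hsc, ← hsc, sub_eq_zero.1 h]
  have hyint : IsIntegral ℤ (D • (s m - s n)) := by
    rw [smul_sub]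
    exact (hDs m).sub (hDs n)
  have h1 := norm_lower D hD0 (s m - s n) hyne hyint
  rw [← Finset.mul_prod_erase _ _ (Finset.mem_univ (φ₀ β)),
    ← Finset.mul_prod_erase _ _ (Finset.mem_erase.2 ⟨hne, Finset.mem_univ φ₁⟩)] at h1
  have e1 : ‖φ₀ β (s m - s n)‖ = |r (m * p) - r (n * p)| := by
    rw [φ₀_apply, Complex.norm_real, Real.norm_eq_abs]
    push_cast
    rw [hsc, hsc]
  have e2 : ‖φ₁ (s m - s n)‖ ≤ 2 * C₁ := by
    rw [map_sub]
    refine (norm_sub_le _ _).trans ?_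
    linarith [hbdd m, hbdd n]
  have e3 : ∀ φ ∈ (Finset.univ.erase (φ₀ β)).erase φ₁,
      |(D : ℝ)| * ‖φ (s m - s n)‖ ≤ |(D : ℝ)| * (2 * C₀) * (1 + M) := by
    intro φ hφ
    have hφ' : φ ≠ φ₀ β := (Finset.mem_erase.1 (Finset.mem_erase.1 hφ).2).1
    have h2 := hgrow φ (hsmall φ hφ')
    rw [map_sub, mul_assoc]
    refine mul_le_mul_of_nonneg_left ((norm_sub_le _ _).trans ?_) hDpos.le
    have h3 := h2 m
    have h4 := h2 n
    have h5 : (m : ℝ) ≤ M := by exact_mod_cast hm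
    have h6 : (n : ℝ) ≤ M := by exact_mod_cast hn
    nlinarith
  have e4 : ∏ φ ∈ (Finset.univ.erase (φ₀ β)).erase φ₁, (|(D : ℝ)| * ‖φ (s m - s n)‖) ≤
      (|(D : ℝ)| * (2 * C₀) * (1 + M)) ^ ((minpoly ℤ β).natDegree - 2) := by
    rw [← hcard2, ← Finset.prod_const]
    exact Finset.prod_le_prod (fun φ _ => by positivity) e3
  have hprodnn : 0 ≤ ∏ φ ∈ (Finset.univ.erase (φ₀ β)).erase φ₁,
      (|(D : ℝ)| * ‖φ (s m - s n)‖) := Finset.prod_nonneg fun φ _ => by positivity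
  rw [e1] at h1
  calc (1 : ℝ) ≤ |(D : ℝ)| * |r (m * p) - r (n * p)| * (|(D : ℝ)| * ‖φ₁ (s m - s n)‖ *
        ∏ φ ∈ (Finset.univ.erase (φ₀ β)).erase φ₁, (|(D : ℝ)| * ‖φ (s m - s n)‖)) := h1
    _ ≤ |(D : ℝ)| * |r (m * p) - r (n * p)| * (|(D : ℝ)| * (2 * C₁) *
        (|(D : ℝ)| * (2 * C₀) * (1 + M)) ^ ((minpoly ℤ β).natDegree - 2)) := by
        refine mul_le_mul_of_nonneg_left ?_ (by positivity)
        exact mul_le_mul (mul_le_mul_of_nonneg_left e2 hDpos.le) e4 hprodnn (by positivity)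
    _ = _ := by rw [mul_pow]; ring

end main

section final

variable {p : ℕ} {βs : ℕ → ℝ} {β : ℝ}

theorem periodic_mul (hper : ∀ n : ℕ, βs (n + p) = βs n) (n m : ℕ) :
    βs (m * p + n) = βs n := by
  induction m with
  | zero => simp
  | succ m ih =>
    rw [← ih, show (m + 1) * p + n = (m * p + n) + p by ring, hper]

/-- equal block states give an eventually periodic expansion -/
theorem periodic_of_eq (hp : 0 < p) (hper : ∀ n : ℕ, βs (n + p) = βs n) (i : ℕ) (r : ℕ → ℝ)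
    (hr : ∀ n : ℕ, r (n + 1) = βs (n + i) * r n - (⌊βs (n + i) * r n⌋ : ℝ))
    (m n : ℕ) (hmn : m < n) (h : r (m * p) = r (n * p)) :
    ∃ N T : ℕ, 0 < T ∧ ∀ k : ℕ, N ≤ k →
      ⌊βs (k + T + i) * r (k + T)⌋ = ⌊βs (k + i) * r k⌋ := by
  have key : ∀ t : ℕ, r (m * p + t) = r (n * p + t) := by
    intro t
    induction t with
    | zero => simpa using h
    | succ t ih =>
      rw [← add_assoc, ← add_assoc, hr, hr, ih, add_assoc (m * p), add_assoc (n * p),
        periodic_mul hper, periodic_mul hper]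
  refine ⟨m * p, (n - m) * p, Nat.mul_pos (by omega) hp, fun k hk => ?_⟩
  obtain ⟨t, rfl⟩ : ∃ t, k = m * p + t := ⟨k - m * p, by omega⟩
  have e1 : m * p + t + (n - m) * p = n * p + t := by
    have : m * p + (n - m) * p = n * p := by
      rw [← add_mul]
      congr 1
      omega
    omega
  rw [e1, key t, add_assoc (n * p), add_assoc (m * p), periodic_mul hper, periodic_mul hper]

/-- equal blocks of digits give close states -/
theorem close_of_block (hp : 0 < p) (hper : ∀ n : ℕ, βs (n + p) = βs n)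
    (hgt : ∀ n : ℕ, 1 < βs n) (hprod : β = ∏ i ∈ Finset.range p, βs i) (hβ : 1 < β) (i : ℕ)
    (r : ℕ → ℝ) (hr0 : 0 ≤ r 0 ∧ r 0 ≤ 1)
    (hr : ∀ n : ℕ, r (n + 1) = βs (n + i) * r n - (⌊βs (n + i) * r n⌋ : ℝ))
    (m n L : ℕ)
    (h : ∀ j : ℕ, j < L → ⌊βs (m * p + j + i) * r (m * p + j)⌋ =
      ⌊βs (n * p + j + i) * r (n * p + j)⌋) :
    β ^ ((L : ℝ) / p) * |r (m * p) - r (n * p)| ≤ β := by
  have hβ0 : 0 < β := by linarith
  have h1 := block hper hgt i r hr m L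
  have h2 := block hper hgt i r hr n L
  have h3 : ∑ k ∈ Finset.range L, (⌊βs (m * p + k + i) * r (m * p + k)⌋ : ℝ) *
      (∏ j ∈ Finset.range (k + 1), βs (j + i))⁻¹ =
      ∑ k ∈ Finset.range L, (⌊βs (n * p + k + i) * r (n * p + k)⌋ : ℝ) *
      (∏ j ∈ Finset.range (k + 1), βs (j + i))⁻¹ := by
    refine Finset.sum_congr rfl fun k hk => ?_
    rw [h k (Finset.mem_range.1 hk)]
  rw [h3] at h1
  have h4 : r (m * p + L) - r (n * p + L) =
      (∏ j ∈ Finset.range L, βs (j + i)) * (r (m * p) - r (n * p)) := by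
    rw [h1, h2]
    ring
  have h5 := state_mem i r hr0 hr (m * p + L)
  have h6 := state_mem i r hr0 hr (n * p + L)
  have h7 : |r (m * p + L) - r (n * p + L)| ≤ 1 := by
    rw [abs_le]
    constructor <;> linarith
  have hW : 0 ≤ ∏ j ∈ Finset.range L, βs (j + i) :=
    Finset.prod_nonneg fun j _ => by linarith [hgt (j + i)]
  rw [h4, abs_mul, abs_of_nonneg hW] at h7
  have h8 := prod_lower hp hper hprod hgt hβ i L
  calc β ^ ((L : ℝ) / p) * |r (m * p) - r (n * p)|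
      ≤ (β * ∏ j ∈ Finset.range L, βs (j + i)) * |r (m * p) - r (n * p)| :=
        mul_le_mul_of_nonneg_right h8 (abs_nonneg _)
    _ = β * ((∏ j ∈ Finset.range L, βs (j + i)) * |r (m * p) - r (n * p)|) := by ring
    _ ≤ β * 1 := mul_le_mul_of_nonneg_left h7 hβ0.le
    _ = β := mul_one β

theorem factors_finite (w : ℕ → ℤ) (B : ℤ) (h : ∀ n, 0 ≤ w n ∧ w n ≤ B) (L : ℕ) :
    (factors w L).Finite := by
  refine (Set.finite_Icc (0 : Fin L → ℤ) (fun _ => B)).subset ?_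
  rintro _ ⟨n, rfl⟩
  exact ⟨fun j => (h _).1, fun j => (h _).2⟩

end final

/-- **Periodic or exponentially complex.**  Let `β` be a Salem number, `β₀, …, β_{p-1} > 1` reals
of `ℚ(β)` with product `β` (extended periodically), `i` a shift and `x ∈ ℚ(β) ∩ [0,1]`
(for instance `x = 1`).  Then the digit sequence of the greedy expansion of `x` with respect to
the `i`-th shift is eventually periodic, or its number of factors of length `L` is at least
`c β^{L/(p(d-2))}` for all `L`, where `d` is the degree of `β` and `c > 0`. -/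
theorem result (p : ℕ) (βs : ℕ → ℝ) (β : ℝ) (hp : 0 < p)
    (hper : ∀ n : ℕ, βs (n + p) = βs n) (hgt : ∀ n : ℕ, 1 < βs n)
    (hprod : β = ∏ i ∈ Finset.range p, βs i)
    (hsalem : IsIntegral ℤ β ∧ 1 < β ∧
      (∀ z : ℂ, aeval z (minpoly ℤ β) = 0 → z ≠ (β : ℂ) → ‖z‖ ≤ 1) ∧
      (∃ z : ℂ, aeval z (minpoly ℤ β) = 0 ∧ ‖z‖ = 1))
    (hmem : ∀ n : ℕ, βs n ∈ IntermediateField.adjoin ℚ ({β} : Set ℝ)) (i : ℕ)
    (x : ℝ) (hx : 0 ≤ x ∧ x ≤ 1) (hxK : x ∈ IntermediateField.adjoin ℚ ({β} : Set ℝ))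
    (r : ℕ → ℝ) (hr0 : r 0 = x)
    (hr : ∀ n : ℕ, r (n + 1) = βs (n + i) * r n - (⌊βs (n + i) * r n⌋ : ℝ)) :
    (∃ N T : ℕ, 0 < T ∧ ∀ n : ℕ, N ≤ n →
      ⌊βs (n + T + i) * r (n + T)⌋ = ⌊βs (n + i) * r n⌋) ∨
    (∃ c : ℝ, 0 < c ∧ ∀ L : ℕ,
      c * β ^ ((L : ℝ) / (p * ((minpoly ℤ β).natDegree - 2))) ≤
        ((factors (fun n => ⌊βs (n + i) * r n⌋) L).ncard : ℝ)) := by
  obtain ⟨hint, hβ, hconj, hunit⟩ := hsalem
  have hβ0 : 0 < β := by linarith
  subst hr0
  by_cases hnp : ∃ N T : ℕ, 0 < T ∧ ∀ n : ℕ, N ≤ n →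
      ⌊βs (n + T + i) * r (n + T)⌋ = ⌊βs (n + i) * r n⌋
  · exact Or.inl hnp
  right
  have hne : ∀ m n : ℕ, m ≠ n → r (m * p) ≠ r (n * p) := by
    intro m n hmn h
    rcases lt_or_gt_of_ne hmn with hlt | hlt
    · exact hnp (periodic_of_eq hp hper i r hr m n hlt h)
    · exact hnp (periodic_of_eq hp hper i r hr n m hlt h.symm)
  have hfin : ∀ L, (factors (fun n => ⌊βs (n + i) * r n⌋) L).Finite := by
    intro L
    refine factors_finite _ ⌊β⌋ (fun n => ?_) L
    have h := digit_bound hp hper hprod hgt i r hx hr n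
    exact ⟨h.1, Int.le_floor.2 h.2⟩
  have hone : ∀ L, (1 : ℝ) ≤ ((factors (fun n => ⌊βs (n + i) * r n⌋) L).ncard : ℝ) := by
    intro L
    have : 0 < (factors (fun n => ⌊βs (n + i) * r n⌋) L).ncard :=
      (Set.ncard_pos (hfin L)).2 (Set.range_nonempty _)
    exact_mod_cast this
  have hp' : (0 : ℝ) < p := by exact_mod_cast hp
  rcases le_or_gt (minpoly ℤ β).natDegree 2 with hd | hd
  · refine ⟨1, one_pos, fun L => ?_⟩
    refine le_trans ?_ (hone L)
    rw [one_mul]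
    apply Real.rpow_le_one_of_one_le_of_nonpos hβ.le
    apply div_nonpos_of_nonneg_of_nonpos (Nat.cast_nonneg L)
    have : ((minpoly ℤ β).natDegree : ℝ) ≤ 2 := by exact_mod_cast hd
    exact mul_nonpos_of_nonneg_of_nonpos hp'.le (by linarith)
  obtain ⟨C, hC0, hC⟩ := gap hp hper hgt hprod hint hβ hconj hunit hmem i r hx hxK hr
  set d' : ℕ := (minpoly ℤ β).natDegree - 2 with hd'
  have hd'0 : 0 < d' := by omega
  have hd'R : ((minpoly ℤ β).natDegree : ℝ) - 2 = d' := by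
    rw [hd', Nat.cast_sub hd.le]
    norm_num
  have hd'pos : (0 : ℝ) < d' := by exact_mod_cast hd'0
  set C₃ : ℝ := C * β with hC₃
  have hC₃0 : 0 < C₃ := mul_pos hC0 hβ0
  refine ⟨(C₃⁻¹) ^ ((1 : ℝ) / d') / 2, by positivity, fun L => ?_⟩
  rw [hd'R]
  set X : ℝ := (C₃⁻¹ * β ^ ((L : ℝ) / p)) ^ ((1 : ℝ) / d') with hX
  have hXeq : (C₃⁻¹) ^ ((1 : ℝ) / d') / 2 * β ^ ((L : ℝ) / (p * d')) = X / 2 := by
    rw [hX, Real.mul_rpow (by positivity) (by positivity), ← Real.rpow_mul hβ0.le]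
    have : (L : ℝ) / p * (1 / d') = (L : ℝ) / (p * d') := by
      field_simp
    rw [this]
    ring
  rw [hXeq]
  have hX0 : 0 ≤ X := by positivity
  rcases le_or_gt X 2 with hX2 | hX2
  · linarith [hone L]
  -- choose `M + 1 = ⌈X⌉ - 1`
  obtain ⟨M, hM1, hM2⟩ : ∃ M : ℕ, (1 + M : ℝ) < X ∧ X / 2 ≤ (1 + M : ℝ) := by
    have h1 : 2 < ⌈X⌉₊ := by
      have : (2 : ℝ) < ⌈X⌉₊ := lt_of_lt_of_le hX2 (Nat.le_ceil X)
      exact_mod_cast this
    refine ⟨⌈X⌉₊ - 2, ?_, ?_⟩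
    · have h2 : (⌈X⌉₊ : ℝ) < X + 1 := Nat.ceil_lt_add_one hX0
      rw [Nat.cast_sub h1.le]
      push_cast
      linarith
    · have h2 : X ≤ (⌈X⌉₊ : ℝ) := Nat.le_ceil X
      rw [Nat.cast_sub h1.le]
      push_cast
      linarith
  refine hM2.trans ?_
  -- the blocks at positions `0, p, …, M p` are distinct
  have hinj : Set.InjOn (fun m : ℕ => fun j : Fin L => ⌊βs (m * p + j + i) * r (m * p + j)⌋)
      (Finset.range (M + 1)) := by
    intro m hm n hn hmn
    by_contra hcon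
    have hm' : m ≤ M := by simpa [Nat.lt_succ_iff] using hm
    have hn' : n ≤ M := by simpa [Nat.lt_succ_iff] using hn
    have h1 := hC M m n hm' hn' (hne m n hcon)
    have h2 := close_of_block hp hper hgt hprod hβ i r hx hr m n L
      (fun j hj => congrFun hmn ⟨j, hj⟩)
    have h3 : β ^ ((L : ℝ) / p) ≤ C₃ * (1 + M : ℝ) ^ d' := by
      calc β ^ ((L : ℝ) / p) = β ^ ((L : ℝ) / p) * 1 := (mul_one _).symm
        _ ≤ β ^ ((L : ℝ) / p) * (|r (m * p) - r (n * p)| * C * (1 + M : ℝ) ^ d') :=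
          mul_le_mul_of_nonneg_left h1 (by positivity)
        _ = (β ^ ((L : ℝ) / p) * |r (m * p) - r (n * p)|) * (C * (1 + M : ℝ) ^ d') := by ring
        _ ≤ β * (C * (1 + M : ℝ) ^ d') := mul_le_mul_of_nonneg_right h2 (by positivity)
        _ = C₃ * (1 + M : ℝ) ^ d' := by rw [hC₃]; ring
    have h4 : C₃⁻¹ * β ^ ((L : ℝ) / p) ≤ (1 + M : ℝ) ^ d' := by
      rw [inv_mul_le_iff₀ hC₃0]
      exact h3
    have h5 : X ≤ 1 + M := by
      calc X ≤ ((1 + M : ℝ) ^ d') ^ ((1 : ℝ) / d') :=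
            Real.rpow_le_rpow (by positivity) h4 (by positivity)
        _ = 1 + M := by
            rw [← Real.rpow_natCast, ← Real.rpow_mul (by positivity), mul_one_div_cancel
              hd'pos.ne', Real.rpow_one]
    linarith
  have hsub : (fun m : ℕ => fun j : Fin L => ⌊βs (m * p + j + i) * r (m * p + j)⌋) ''
      (Finset.range (M + 1) : Set ℕ) ⊆ factors (fun n => ⌊βs (n + i) * r n⌋) L := by
    rintro _ ⟨m, _, rfl⟩
    exact ⟨m * p, rfl⟩
  have hcard := Set.ncard_le_ncard hsub (hfin L)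
  rw [hinj.ncard_image, Set.ncard_coe_finset, Finset.card_range] at hcard
  have : ((M + 1 : ℕ) : ℝ) ≤ ((factors (fun n => ⌊βs (n + i) * r n⌋) L).ncard : ℝ) := by
    exact_mod_cast hcard
  push_cast at this
  linarith

end Pool.Agent.Results.MP_2b41e9_nt.Complexity
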