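import Pool.Agent.helper93.PX.NPD

/-!
Necessary conditions for the Parry property of alternate bases with entries in ℚ(β), β the product:
one Parry base forces β to be a Perron number; if β is neither Pisot nor Salem, then every base
has arbitrarily close non-Parry modifications, obtained by splitting its last entry.
-/

set_option autoImplicit false

namespace Pool.Agent.Results.MP_2b41e9_nt.PisotOrSalem

/-- Perron number: an algebraic integer β > 1 all of whose other conjugates have modulus < β. -/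
def IsPerron (β : ℝ) : Prop :=
  IsIntegral ℤ β ∧ 1 < β ∧
    ∀ z : ℂ, Polynomial.aeval z (minpoly ℤ β) = 0 → z ≠ (β : ℂ) → ‖z‖ < β

/-- Pisot number. -/
def IsPisot (β : ℝ) : Prop :=
  IsIntegral ℤ β ∧ 1 < β ∧
    ∀ z : ℂ, Polynomial.aeval z (minpoly ℤ β) = 0 → z ≠ (β : ℂ) → ‖z‖ < 1

/-- Salem number (exactly as in the frozen statement S16397). -/
def IsSalem (β : ℝ) : Prop :=
  IsIntegral ℤ β ∧ 1 < β ∧
    (∀ z : ℂ, Polynomial.aeval z (minpoly ℤ β) = 0 → z ≠ (β : ℂ) → ‖z‖ ≤ 1) ∧
    ∃ z : ℂ, Polynomial.aeval z (minpoly ℤ β) = 0 ∧ ‖z‖ = 1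

/-- Alternate base (b 0, ..., b (p-1)) of real numbers > 1 with product β, indices mod p. -/
def IsAlt (β : ℝ) (p : ℕ) (b : ℕ → ℝ) : Prop :=
  0 < p ∧ (∀ n, b (n + p) = b n) ∧ (∀ n, 1 < b n) ∧ β = ∏ i ∈ Finset.range p, b i

/-- All entries lie in ℚ(β). -/
def InField (β : ℝ) (b : ℕ → ℝ) : Prop :=
  ∀ n, b n ∈ IntermediateField.adjoin ℚ ({β} : Set ℝ)

/-- r is the sequence of remainders of the greedy expansion of 1 for the i-th shift of b. -/
def IsGreedy (b : ℕ → ℝ) (i : ℕ) (r : ℕ → ℝ) : Prop :=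
  r 0 = 1 ∧ ∀ n, r (n + 1) = b (n + i) * r n - (⌊b (n + i) * r n⌋ : ℝ)

/-- Parry (the conclusion of S16397): for every shift the greedy expansion of 1 has ultimately
periodic digits. -/
def IsParry (p : ℕ) (b : ℕ → ℝ) : Prop :=
  ∀ i, i < p → ∀ r : ℕ → ℝ, IsGreedy b i r →
    ∃ N T : ℕ, 0 < T ∧ ∀ n, N ≤ n → ⌊b (n + T + i) * r (n + T)⌋ = ⌊b (n + i) * r n⌋

/-- The base (b 0, ..., b (p-2), b (p-1) / c, c) of length p + 1. -/
noncomputable def split (p : ℕ) (b : ℕ → ℝ) (c : ℝ) (n : ℕ) : ℝ :=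
  if n % (p + 1) + 1 < p then b (n % (p + 1))
  else if n % (p + 1) + 1 = p then b (p - 1) / c else c

theorem result :
    (∀ (β : ℝ) (p : ℕ) (b : ℕ → ℝ), IsAlt β p b → InField β b → IsParry p b → IsPerron β) ∧
    ∀ β : ℝ, 1 < β → ¬ (IsPisot β ∨ IsSalem β) →
      ∀ (p : ℕ) (b : ℕ → ℝ), IsAlt β p b → InField β b → ∀ ε : ℝ, 0 < ε →
        ∃ c : ℝ, 1 < c ∧ c < 1 + ε ∧ IsAlt β (p + 1) (split p b c) ∧
          InField β (split p b c) ∧ ¬ IsParry (p + 1) (split p b c) := by
  refine ⟨Pool.Agent.PX.FIN_parry_perron, ?_⟩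
  intro β hβ1 hn p b hb hK ε hε
  by_cases hint : IsIntegral ℤ β
  · -- there is a conjugate outside the closed unit disc
    have hex : ∃ z : ℂ, Polynomial.aeval z (minpoly ℤ β) = 0 ∧ z ≠ (β : ℂ) ∧ 1 < ‖z‖ := by
      by_contra hcon
      push Not at hcon
      apply hn
      by_cases h1 : ∃ z : ℂ, Polynomial.aeval z (minpoly ℤ β) = 0 ∧ ‖z‖ = 1
      · exact Or.inr ⟨hint, hβ1, hcon, h1⟩
      · refine Or.inl ⟨hint, hβ1, fun z hz hzβ => lt_of_le_of_ne (hcon z hz hzβ) ?_⟩
        intro h2
        exact h1 ⟨z, hz, h2⟩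
    obtain ⟨z, hz, hzβ, hz1⟩ := hex
    exact Pool.Agent.PX.NPD_main β hint hβ1 z hz hzβ hz1 p b hb hK ε hε
  · -- no base over ℚ(β) is Parry: split with a rational number
    obtain ⟨hp, hper, h1, hprod⟩ := hb
    obtain ⟨q, rfl⟩ : ∃ q, p = q + 1 := ⟨p - 1, by omega⟩
    obtain ⟨c, hc1, hc2⟩ := exists_rat_btwn (show (1 : ℝ) < min (1 + ε) (b q) by
      rw [lt_min_iff]; exact ⟨by linarith, h1 q⟩)
    have hcε : (c : ℝ) < 1 + ε := hc2.trans_le (min_le_left _ _)
    have hcb : (c : ℝ) < b q := hc2.trans_le (min_le_right _ _)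
    have hc0 : (0 : ℝ) < c := by linarith
    have hcK : (c : ℝ) ∈ IntermediateField.adjoin ℚ ({β} : Set ℝ) := by simp
    have halt : IsAlt β (q + 1 + 1) (split (q + 1) b c) := by
      refine ⟨by omega, ?_, ?_, ?_⟩
      · intro n
        simp [split]
      · intro n
        simp only [split]
        split_ifs
        · exact h1 _
        · rw [lt_div_iff₀ hc0]
          simpa using hcb
        · exact hc1
      · rw [hprod, Finset.prod_range_succ, Finset.prod_range_succ, Finset.prod_range_succ,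
          mul_assoc]
        have e1 : split (q + 1) b c q = b q / c := by
          simp only [split]
          rw [Nat.mod_eq_of_lt (show q < q + 1 + 1 by omega), if_neg (by omega), if_pos rfl]
          simp
        have e2 : split (q + 1) b c (q + 1) = c := by
          simp only [split]
          rw [Nat.mod_eq_of_lt (show q + 1 < q + 1 + 1 by omega), if_neg (by omega),
            if_neg (by omega)]
        rw [e1, e2, div_mul_cancel₀ _ hc0.ne']
        congr 1
        refine Finset.prod_congr rfl fun i hi => ?_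
        have hi' := Finset.mem_range.1 hi
        simp only [split]
        rw [Nat.mod_eq_of_lt (show i < q + 1 + 1 by omega), if_pos (by omega)]
    have hfield : InField β (split (q + 1) b c) := by
      intro n
      simp only [split]
      split_ifs
      · exact hK _
      · exact IntermediateField.div_mem _ (hK _) hcK
      · exact hcK
    refine ⟨c, hc1, hcε, halt, hfield, ?_⟩
    intro hP
    exact hint (Pool.Agent.PX.FIN_parry_perron β _ _ halt hfield hP).1

end Pool.Agent.Results.MP_2b41e9_nt.PisotOrSalem
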